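import Pool.Agent.Helper51.QP.Final
import Pool.Agent.Helper51.TR.Crit

/-! Geometric Breuil–Mézard conjecture for crystalline cycles of `GL_d` over a `p`-adic field with
residue field `k`: quasi-polynomiality of the cycles in the weights and finitely many relations. -/

set_option autoImplicit false

namespace Pool.Agent.Results.MP_4c60d4_nt.QuasiPolynomial

open FR Matrix Pool.Agent.Helper51.TR Pool.Agent.Helper51.QP

/-- Let `k` be a finite field of characteristic `p` with `q` elements, `F` an algebraically
closed field of characteristic `p`, `T` a finite set with a surjection `π` onto the embeddings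
`k → F` (the embeddings of the `p`-adic field), `S j` a complete list of the irreducible
`F`-representations of `GL_d(k)` (Serre weights), `n` the multiplicity function. Let `L > 0` be
divisible by all `q ^ r - 1`, `1 ≤ r ≤ d`, and `D ≥ d`. The alternating extension of `n` is
killed by the `D`-th difference with step `L` in every entry. For every function `cyc` on the
tuples of regular weights and all `Z j`: `cyc lam = ∑ n_j(lam) Z_j` for all `lam` iff `cyc` is
quasi-polynomial (the `D`-th differences with step `L` vanish inside the regular weights) and the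
equality holds on one window of side `D L`, with separated but otherwise arbitrary position.
Such `Z j` exist iff `cyc` is quasi-polynomial, compatible with twists and satisfies one step
relation for each of the finitely many normalised `lam` of total spread at most `N` with a step,
for any one `N ≥ #T d D L`. -/
theorem result (p : ℕ) [Fact p.Prime] (d : ℕ) (hd : 0 < d)
    (k : Type) [Field k] [Fintype k] [CharP k p]
    (F : Type) [Field F] [CharP F p] [IsAlgClosed F]
    (T : Type) [Fintype T] [Nonempty T] (π : T → (k →+* F)) (hπ : Function.Surjective π)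
    (J : Type) (V : J → Type) [∀ j, AddCommGroup (V j)] [∀ j, Module F (V j)]
    [∀ j, FiniteDimensional F (V j)]
    (S : ∀ j, Representation F (GL (Fin d) k) (V j))
    (hS : ∀ j, (S j).IsIrreducible)
    (hne : ∀ i j, i ≠ j → IsEmpty ((S i).Equiv (S j)))
    (hall : ∀ (W : Type) [AddCommGroup W] [Module F W] [FiniteDimensional F W]
      (ρ : Representation F (GL (Fin d) k) W), ρ.IsIrreducible → ∃ j, Nonempty (ρ.Equiv (S j))) :
    ∃ n : (T → Reg d) → (J →₀ ℤ), IsMult p π S n ∧ (∀ n', IsMult p π S n' → n' = n) ∧
      ∀ L D : ℕ, 0 < L → (∀ r ∈ Finset.Icc 1 d, Fintype.card k ^ r - 1 ∣ L) → d ≤ D →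
        (∀ (m : T → Fin d → ℤ) (t : T) (i : Fin d),
          ∑ r ∈ Finset.range (D + 1), ((-1) ^ r * (D.choose r : ℤ)) •
            ext n (shift m t ((r * L : ℕ) : ℤ) {i}) = 0) ∧
        ∀ (A : Type) [AddCommGroup A] (cyc : (T → Reg d) → A),
          (∀ (Z : J → A) (a : T → Fin d → ℤ),
            (∀ (t : T) (i j : Fin d), i.1 + 1 = j.1 → a t j + ((D * L : ℕ) : ℤ) ≤ a t i) →
            ((∀ lam, cyc lam = (n lam).sum fun j z => z • Z j) ↔
              QPoly L D cyc ∧
                ∀ lam ∈ Window a (D * L), cyc lam = (n lam).sum fun j z => z • Z j)) ∧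
          ∀ (N : ℕ) (b : (k →+* F) → T) (f0 : k →+* F),
            Fintype.card T * (d * (D * L)) ≤ N → (∀ f, π (b f) = f) →
            {lam : T → Reg d | lam ∈ Low (Fintype.card k) (b f0) ∧
              Within (N : ℕ∞) lam}.Finite ∧
            ((∃ Z : J → A, ∀ lam, cyc lam = (n lam).sum fun j z => z • Z j) ↔
              QPoly L D cyc ∧ TwistIn p π N cyc ∧
                ∀ lam ∈ Low (Fintype.card k) (b f0), Within (N : ℕ∞) lam → HasStep p π b lam →
                  ∃ t t' z r, IsStep p π b lam t t' z r ∧ StepRel cyc lam t t' z r) := by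
  classical
  obtain ⟨n, hn⟩ := exists_isMult p π S hall
  refine ⟨n, hn, fun n' hn' => isMult_unique p π S hS hne hn' hn, fun L D hL0 hL hD => ⟨?_, ?_⟩⟩
  · exact fun m t i => qp_mult p π S hS hne hn L D hL hD m t i
  · intro A _ cyc
    refine ⟨fun Z a ha => qp_iff p π S hd hS hne hn L D hL0 hL hD cyc Z a ha,
      fun N b f0 hN hb => ⟨low_finite _ N _, ?_⟩⟩
    set a : T → Fin d → ℤ := fun (_ : T) (i : Fin d) => (((d - 1 - i.1) * (D * L) : ℕ) : ℤ)
      with hadef
    have ha : ∀ (t : T) (i j : Fin d), i.1 + 1 = j.1 → a t j + ((D * L : ℕ) : ℤ) ≤ a t i := by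
      intro t i j hij
      simp only [hadef]
      have h1 : d - 1 - i.1 = (d - 1 - j.1) + 1 := by have := j.2; omega
      rw [h1, ← Nat.cast_add]
      apply le_of_eq
      congr 1
      ring
    constructor
    · rintro ⟨Z, hZ⟩
      obtain ⟨h1, h2⟩ := relations p π S hd hπ hS hne hn N cyc Z fun lam _ => hZ lam
      refine ⟨((qp_iff p π S hd hS hne hn L D hL0 hL hD cyc Z a ha).1 hZ).1, h1, ?_⟩
      rintro lam - hl ⟨t, t', z, r, hs⟩
      exact ⟨t, t', z, r, hs, h2 lam hl t t' z r hs⟩
    · rintro ⟨h1, h2, h3⟩
      obtain ⟨Z, hZ⟩ := criterion p π S f0 hd hπ hS hne hall hb hn N cyc h2 h3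
      refine ⟨Z, (qp_iff p π S hd hS hne hn L D hL0 hL hD cyc Z a ha).2 ⟨h1, fun lam hlam => ?_⟩⟩
      exact hZ lam (window_within hd (D * L) N (by exact_mod_cast hN) lam hlam)

end Pool.Agent.Results.MP_4c60d4_nt.QuasiPolynomial
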