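import Pool.Agent.Helper62.BMW.Box
import Pool.Agent.Helper62.BMW.Indep

/-! Geometric Breuil–Mézard conjecture for crystalline cycles of `GL_d`: which Frobenius
recurrences are needed, and at which weights.  The recurrences of index one for all weights
together with those of index at most `d / 2` at weights as regular as one likes suffice, and none
of these indices can be dropped. -/

set_option autoImplicit false

namespace Pool.Agent.Results.MP_4c60d4_nt.RegularWeights

open FR BMW Matrix

/-- Let `k` be a finite field of characteristic `p`, `F` an algebraically closed field of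
characteristic `p`, `T` a finite nonempty set with a surjection `π` onto the embeddings `k → F`
(the embeddings of the `p`-adic field), `S j` a complete list of the irreducible
`F`-representations of `GL_d(k)` (Serre weights), `n` the multiplicity function.

* For every `G` and every `cyc` compatible with duality: cycles `Z j` with
  `cyc lam = ∑ n_j(lam) Z_j` for ALL `lam` exist iff `cyc` is compatible with twists and satisfies
  the recurrences of index `1` for all `lam` and those of index at most `d / 2` for all `lam` with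
  all gaps at least `G`.
* None of the indices can be dropped: for every `1 ≤ j < d` there is `cyc`, with values in a free
  abelian group of finite rank, compatible with twists and duality, satisfying all recurrences of
  index `i ≠ j, d - j`, for which there are no such cycles.
* Without twists and duality: the cycles exist iff the recurrences of index `1` hold for all
  `lam` and the other ones for all `lam` with all gaps at least `G`.
* Given the `Z j`: `cyc lam = ∑ n_j(lam) Z_j` for all `lam` iff this holds for all `lam` with all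
  gaps at least `G` and `cyc` satisfies the recurrences of index `1`.
* The classes `n lam`, `lam` in any box of side `p d` whose corner has all gaps at least `p d`,
  generate the Grothendieck group. -/
theorem result (p : ℕ) [Fact p.Prime] (d : ℕ) (hd : 0 < d)
    (k : Type) [Field k] [Fintype k] [CharP k p]
    (F : Type) [Field F] [CharP F p] [IsAlgClosed F]
    (T : Type) [Fintype T] [Nonempty T] (π : T → (k →+* F)) (hπ : Function.Surjective π)
    (J : Type) (V : J → Type) [∀ j, AddCommGroup (V j)] [∀ j, Module F (V j)]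
    [∀ j, FiniteDimensional F (V j)]
    (S : ∀ j, Representation F (GL (Fin d) k) (V j))
    (hS : ∀ j, (S j).IsIrreducible)
    (hne : ∀ i j, i ≠ j → IsEmpty ((S i).Equiv (S j)))
    (hall : ∀ (W : Type) [AddCommGroup W] [Module F W] [FiniteDimensional F W]
      (ρ : Representation F (GL (Fin d) k) W), ρ.IsIrreducible → ∃ j, Nonempty (ρ.Equiv (S j))) :
    ∃ n : (T → Reg d) → (J →₀ ℤ), IsMult p π S n ∧ (∀ n', IsMult p π S n' → n' = n) ∧
      (∀ (G : ℤ) (A : Type) [AddCommGroup A] (cyc : (T → Reg d) → A),
        (∀ D : A →+ A, (∀ lam, D (cyc lam) = cyc (dualR lam)) →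
          ((∃ Z : J → A, ∀ lam, cyc lam = (n lam).sum fun j z => z • Z j) ↔
            TwistRec p π cyc ∧ FrobRecUpTo p 1 π cyc ∧ DeepRec p (d / 2) G π cyc)) ∧
        ((∃ Z : J → A, ∀ lam, cyc lam = (n lam).sum fun j z => z • Z j) ↔
          FrobRecUpTo p 1 π cyc ∧ DeepRec p d G π cyc) ∧
        ∀ Z : J → A, (∀ lam, cyc lam = (n lam).sum fun j z => z • Z j) ↔
          FrobRecUpTo p 1 π cyc ∧ ∀ lam : T → Reg d, IsDeep G (fun t => (lam t).1) →
            cyc lam = (n lam).sum fun j z => z • Z j) ∧
      (∀ j : ℕ, 1 ≤ j → j < d → ∃ (A : Type) (_ : AddCommGroup A), Module.Free ℤ A ∧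
        Module.Finite ℤ A ∧ ∃ (cyc : (T → Reg d) → A) (D : A →+ A),
          (∀ lam, D (cyc lam) = cyc (dualR lam)) ∧ TwistRec p π cyc ∧
          (∀ t t' : T, (∀ z, π t' z = π t z ^ p) → ∀ i ∈ Finset.Icc 1 d, i ≠ j → i ≠ d - j →
            ∀ lam : T → Reg d,
              ∑ S ∈ (Finset.univ : Finset (Fin d)).powersetCard i,
                  ext cyc (shift (fun u => (lam u).1) t p S) =
                ∑ S ∈ (Finset.univ : Finset (Fin d)).powersetCard i,
                  ext cyc (shift (fun u => (lam u).1) t' 1 S)) ∧
          ¬ ∃ Z : J → A, ∀ lam, cyc lam = (n lam).sum fun j z => z • Z j) ∧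
      (∀ a : T → Fin d → ℤ, IsDeep ((p : ℤ) * d) a →
        Submodule.span ℤ (n '' {lam : T → Reg d |
          ∀ t i, a t i ≤ (lam t).1 i ∧ (lam t).1 i < a t i + (p : ℤ) * d}) = ⊤) := by
  classical
  obtain ⟨n, hn⟩ := exists_isMult p π S hall
  have hp : 2 ≤ p := (Fact.out : p.Prime).two_le
  have hex : ∀ t : T, ∃ t' : T, ∀ z, π t' z = π t z ^ p := by
    intro t
    obtain ⟨t', ht'⟩ := hπ ((frobenius F p).comp (π t))
    refine ⟨t', fun z => ?_⟩
    rw [ht']
    rfl
  choose nx hnx using hex
  -- the recurrences of the right hand side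
  have hfr : ∀ (A : Type) [AddCommGroup A] (Z : J → A),
      FrobRec p π (fun lam => (n lam).sum fun j z => z • Z j) := fun A _ Z =>
    frobRec_of_exists p π S hS hne hn _ Z fun _ => rfl
  refine ⟨n, hn, fun n' hn' => isMult_unique p π S hS hne hn' hn, ?_, ?_, ?_⟩
  · intro G A _ cyc
    have hall' : FrobRec p π cyc → FrobRecUpTo p 1 π cyc ∧ DeepRec p d G π cyc := by
      intro h
      refine ⟨fun t t' ht i hi lam => h t t' ht i ?_ lam, fun t t' ht i hi lam _ =>
        h t t' ht i hi lam⟩
      rw [Finset.mem_Icc] at hi ⊢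
      omega
    refine ⟨fun D hD => ⟨?_, ?_⟩, ⟨?_, ?_⟩, fun Z => ⟨?_, ?_⟩⟩
    · rintro ⟨Z, hZ⟩
      have h := frobRec_of_exists p π S hS hne hn cyc Z hZ
      refine ⟨?_, (hall' h).1, fun t t' ht i hi lam _ => h t t' ht i ?_ lam⟩
      · intro t t' ht lam
        have h1 := h t t' ht d (Finset.mem_Icc.2 ⟨hd, le_rfl⟩) lam
        rw [sum_top, sum_top] at h1
        exact h1
      · rw [Finset.mem_Icc] at hi ⊢
        omega
    · rintro ⟨h0, h1, h2⟩
      exact exists_of_frobRec p π S hd hπ hS hne hall hn cyc
        (frobRec_of_half π cyc D hD h0 (upTo_of_deep π hp nx hnx h1 h2))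
    · rintro ⟨Z, hZ⟩
      exact hall' (frobRec_of_exists p π S hS hne hn cyc Z hZ)
    · rintro ⟨h1, h2⟩
      exact exists_of_frobRec p π S hd hπ hS hne hall hn cyc (upTo_of_deep π hp nx hnx h1 h2)
    · intro hZ
      exact ⟨(hall' (frobRec_of_exists p π S hS hne hn cyc Z hZ)).1, fun lam _ => hZ lam⟩
    · rintro ⟨h1, h2⟩ lam
      have hE : FrobRecUpTo p 1 π (fun lam => cyc lam - (n lam).sum fun j z => z • Z j) := by
        intro t t' ht i hi lam
        have h3 : FrobRec p π (fun lam => (n lam).sum fun j z => z • Z j) := hfr A Z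
        have h4 := h1 t t' ht i hi lam
        have h5 := h3 t t' ht i (by
          rw [Finset.mem_Icc] at hi ⊢
          omega) lam
        simp only [ext_sub, Finset.sum_sub_distrib]
        rw [h4, h5]
      exact sub_eq_zero.1 (zero_of_deep π hp nx hnx hE (G := G)
        (fun lam hlam => sub_eq_zero.2 (h2 lam hlam)) lam)
  · intro j hj hjd
    obtain ⟨A, _, hfree, hfin, cyc, D, h1, h2, h3⟩ :=
      BMW.V.indep p π (fun t => ⟨nx t, hnx t⟩) hj hjd
    refine ⟨A, inferInstance, hfree, hfin, cyc, D, h1, ?_, h2, fun ⟨Z, hZ⟩ =>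
      h3 (frobRec_of_exists p π S hS hne hn cyc Z hZ)⟩
    intro t t' ht lam
    have h4 := h2 t t' ht d (Finset.mem_Icc.2 ⟨hd, le_rfl⟩) (by omega) (by omega) lam
    rw [sum_top, sum_top] at h4
    exact h4
  · -- boxes generate
    intro a ha
    set N := Submodule.span ℤ (n '' {lam : T → Reg d |
          ∀ t i, a t i ≤ (lam t).1 i ∧ (lam t).1 i < a t i + (p : ℤ) * d}) with hN
    let A := (J →₀ ℤ) ⧸ N
    let Z : J → A := fun j => N.mkQ (Finsupp.single j 1)
    let cyc : (T → Reg d) → A := fun lam => (n lam).sum fun j z => z • Z j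
    have hcyc : ∀ lam, cyc lam = N.mkQ (n lam) := by
      intro lam
      simp only [cyc, Z]
      conv_rhs => rw [← Finsupp.sum_single (n lam)]
      rw [Finsupp.sum, Finsupp.sum, map_sum]
      refine Finset.sum_congr rfl fun j _ => ?_
      rw [← map_smul, Finsupp.smul_single, smul_eq_mul, mul_one]
    have hrec : RecT p π (ext cyc) := recT_of_frobRec π cyc (hfr A Z)
    have hzero := zero_of_box p π hd hπ hrec nx hnx a (by
      intro m hm
      have hanti : ∀ t, StrictAnti (m t) := by
        intro t i j hij
        have h1 := ha t i j hij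
        have h2 := (hm t i).1
        have h3 := (hm t j).2
        linarith
      have he : ext cyc m = cyc fun u => ⟨m u, hanti u⟩ :=
        ext_reg cyc fun u => ⟨m u, hanti u⟩
      rw [he, hcyc]
      rw [Submodule.mkQ_apply, Submodule.Quotient.mk_eq_zero, hN]
      exact Submodule.subset_span ⟨_, fun t i => hm t i, rfl⟩)
    have hZ : Z = 0 := by
      refine unique_of_mult p π S hd hS hne hall hn Z 0 fun lam => ?_
      have h1 : cyc lam = 0 := by rw [← ext_reg cyc lam, hzero]
      have h2 : ((n lam).sum fun j z => z • (0 : J → A) j) = 0 := by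
        simp [Finsupp.sum]
      rw [h2]
      exact h1
    rw [eq_top_iff]
    intro w _
    rw [← Finsupp.sum_single w, Finsupp.sum]
    refine Submodule.sum_mem _ fun j _ => ?_
    have h1 : Finsupp.single j 1 ∈ N := by
      rw [← Submodule.Quotient.mk_eq_zero, ← Submodule.mkQ_apply]
      exact congrFun hZ j
    have h2 : Finsupp.single j (w j) = w j • Finsupp.single j (1 : ℤ) := by
      rw [Finsupp.smul_single, smul_eq_mul, mul_one]
    rw [h2]
    exact N.smul_mem _ h1

end Pool.Agent.Results.MP_4c60d4_nt.RegularWeights
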