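import Pool.Agent.Helper51.TR.Crit

/-! Geometric Breuil–Mézard conjecture for crystalline cycles of `GL_d` over a `p`-adic field with
residue field `k`: a complete and independent set of linear relations between the cycles. -/

set_option autoImplicit false

namespace Pool.Agent.Results.MP_4c60d4_nt.TriangularRecurrences

open FR Matrix Pool.Agent.Helper51.TR

/-- Let `k` be a finite field of characteristic `p`, `F` an algebraically closed field of
characteristic `p`, `T` a finite set with a surjection `π` onto the embeddings `k → F`
(the embeddings of the `p`-adic field), `S j` a complete list of the irreducible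
`F`-representations of `GL_d(k)` (Serre weights).  There is a unique multiplicity function `n`
(Weyl character formula and Brauer characters).  Choose one element `b f` of `T` above every
embedding `f`, and `f0`.  Call a tuple `lam` of regular weights normalised if its last entries
vanish, except the one at `b f0`, which lies in `[0, q - 1)`.  Then the `n lam` for `lam`
normalised without steps are a `ℤ`-basis of the Grothendieck group; cycles `Z j` with
`cyc lam = ∑ n_j(lam) Z_j` for all `lam` of total spread at most `N` exist iff `cyc` is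
compatible with twists and satisfies one step relation for every normalised `lam` of spread at
most `N` which has a step (or for its dual, if `cyc` is compatible with duality), and then
all the step relations hold there; and these relations are independent: for every choice of the
steps the system with arbitrary right hand sides and arbitrary values at the normalised tuples
without steps has exactly one twist compatible solution. -/
theorem result (p : ℕ) [Fact p.Prime] (d : ℕ) (hd : 0 < d)
    (k : Type) [Field k] [Fintype k] [CharP k p]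
    (F : Type) [Field F] [CharP F p] [IsAlgClosed F]
    (T : Type) [Fintype T] [Nonempty T] (π : T → (k →+* F)) (hπ : Function.Surjective π)
    (J : Type) (V : J → Type) [∀ j, AddCommGroup (V j)] [∀ j, Module F (V j)]
    [∀ j, FiniteDimensional F (V j)]
    (S : ∀ j, Representation F (GL (Fin d) k) (V j))
    (hS : ∀ j, (S j).IsIrreducible)
    (hne : ∀ i j, i ≠ j → IsEmpty ((S i).Equiv (S j)))
    (hall : ∀ (W : Type) [AddCommGroup W] [Module F W] [FiniteDimensional F W]
      (ρ : Representation F (GL (Fin d) k) W), ρ.IsIrreducible → ∃ j, Nonempty (ρ.Equiv (S j))) :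
    ∃ n : (T → Reg d) → (J →₀ ℤ), IsMult p π S n ∧ (∀ n', IsMult p π S n' → n' = n) ∧
      ∀ (b : (k →+* F) → T), (∀ f, π (b f) = f) → ∀ f0 : k →+* F,
        (LinearIndependent ℤ (fun lam : {lam : T → Reg d |
            lam ∈ Low (Fintype.card k) (b f0) ∧ ¬ HasStep p π b lam} => n lam.1) ∧
          Submodule.span ℤ (n '' {lam : T → Reg d |
            lam ∈ Low (Fintype.card k) (b f0) ∧ ¬ HasStep p π b lam}) = ⊤) ∧
        (∀ N : ℕ, {lam : T → Reg d |
          lam ∈ Low (Fintype.card k) (b f0) ∧ Within (N : ℕ∞) lam}.Finite) ∧
        ∀ (A : Type) [AddCommGroup A],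
          (∀ (N : ℕ∞) (cyc : (T → Reg d) → A),
            ((∃ Z : J → A, ∀ lam, Within N lam → cyc lam = (n lam).sum fun j z => z • Z j) ↔
              TwistIn p π N cyc ∧ ∀ lam ∈ Low (Fintype.card k) (b f0), Within N lam →
                HasStep p π b lam →
                ∃ t t' z r, IsStep p π b lam t t' z r ∧ StepRel cyc lam t t' z r) ∧
            (∀ D : A →+ A, (∀ lam, Within N lam → D (cyc lam) = cyc (dualR lam)) →
              ((∃ Z : J → A, ∀ lam, Within N lam → cyc lam = (n lam).sum fun j z => z • Z j) ↔
                TwistIn p π N cyc ∧ ∀ lam ∈ Low (Fintype.card k) (b f0), Within N lam →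
                  HasStep p π b lam →
                  ∃ t t' z r, (IsStep p π b lam t t' z r ∧ StepRel cyc lam t t' z r) ∨
                    (IsStep p π b (dualR lam) t t' z r ∧
                      StepRel cyc (dualR lam) t t' z r))) ∧
            ((∃ Z : J → A, ∀ lam, Within N lam → cyc lam = (n lam).sum fun j z => z • Z j) →
              ∀ lam, Within N lam → ∀ t t' z r, IsStep p π b lam t t' z r →
                StepRel cyc lam t t' z r)) ∧
          (∀ cyc : (T → Reg d) → A,
            (∃ Z : J → A, ∀ lam, cyc lam = (n lam).sum fun j z => z • Z j) ↔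
              FrobRec p π cyc) ∧
          ∀ (σ : (T → Reg d) → T × T × ℤ × ℕ) (g : (T → Reg d) → A),
            (∀ lam ∈ Low (Fintype.card k) (b f0), HasStep p π b lam →
              IsStep p π b lam (σ lam).1 (σ lam).2.1 (σ lam).2.2.1 (σ lam).2.2.2) →
            ∃! cyc : (T → Reg d) → A, TwistRec p π cyc ∧
              ∀ lam ∈ Low (Fintype.card k) (b f0), (¬ HasStep p π b lam → cyc lam = g lam) ∧
                (HasStep p π b lam →
                  defect cyc lam (σ lam).1 (σ lam).2.1 (σ lam).2.2.1 (σ lam).2.2.2 = g lam) := by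
  classical
  obtain ⟨n, hn⟩ := exists_isMult p π S hall
  refine ⟨n, hn, fun n' hn' => isMult_unique p π S hS hne hn' hn, fun b hb f0 => ?_⟩
  have hNorm : {lam : T → Reg d | lam ∈ Low (Fintype.card k) (b f0) ∧ ¬ HasStep p π b lam} =
      Norm p (Fintype.card k) π b f0 := by
    ext lam
    exact (norm_iff hb f0 _ lam).symm
  refine ⟨?_, fun N => low_finite _ N _, fun A _ => ⟨fun N cyc => ?_, fun cyc => ?_,
    fun σ g hσ => ?_⟩⟩
  · rw [hNorm]
    exact basis_norm p π S f0 hd hπ hS hne hall hb hn
  · have hrel : (∃ Z : J → A, ∀ lam, Within N lam → cyc lam = (n lam).sum fun j z => z • Z j) →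
        TwistIn p π N cyc ∧ ∀ lam, Within N lam → ∀ t t' z r, IsStep p π b lam t t' z r →
          StepRel cyc lam t t' z r := fun ⟨Z, hZ⟩ => relations p π S hd hπ hS hne hn N cyc Z hZ
    refine ⟨⟨fun h => ⟨(hrel h).1, ?_⟩, fun h => criterion p π S f0 hd hπ hS hne hall hb hn N cyc
      h.1 h.2⟩, fun D hD => ⟨fun h => ⟨(hrel h).1, ?_⟩, ?_⟩, fun h => (hrel h).2⟩
    · rintro lam - hl ⟨t, t', z, r, hs⟩
      exact ⟨t, t', z, r, hs, (hrel h).2 lam hl t t' z r hs⟩
    · rintro lam - hl ⟨t, t', z, r, hs⟩
      exact ⟨t, t', z, r, Or.inl ⟨hs, (hrel h).2 lam hl t t' z r hs⟩⟩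
    · rintro ⟨htw, h⟩
      refine criterion p π S f0 hd hπ hS hne hall hb hn N cyc htw fun lam hlow hl hst => ?_
      obtain ⟨t, t', z, r, h1 | ⟨h1, h2⟩⟩ := h lam hlow hl hst
      · exact ⟨t, t', z, r, h1⟩
      · exact ⟨t, t', z, d - r, step_of_dual p π hπ htw D hD hl h1 h2⟩
  · exact ⟨fun ⟨Z, hZ⟩ => frobRec_of_exists p π S hS hne hn cyc Z hZ,
      fun h => exists_of_frobRec p π S hd hπ hS hne hall hn cyc h⟩
  · exact free_system π b (b f0) hπ hd σ g hσ

end Pool.Agent.Results.MP_4c60d4_nt.TriangularRecurrences
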