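import Pool.Agent.Helper62.BMW.Final

/-! Geometric Breuil–Mézard conjecture for crystalline cycles of `GL_d`: given the lower bound
coming from patching, equality at finitely many weights (in a window placed anywhere in the
regular region) and the one-sided Frobenius recurrence of index one force equality at all
weights. -/

set_option autoImplicit false

namespace Pool.Agent.Results.MP_4c60d4_nt.WindowRigidity

open FR BMW Matrix

/-- Let `k` be a finite field of characteristic `p`, `F` an algebraically closed field of
characteristic `p`, `T` a finite nonempty set with a surjection `π` onto the embeddings `k → F`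
(the embeddings of the `p`-adic field), `S j` a complete list of the irreducible
`F`-representations of `GL_d(k)` (Serre weights), `n` the multiplicity function.  For every tuple
`c` of weights with all gaps at least `depth` there is a finite set `W` of tuples in the window of
radius `d (p + 1)` around `c` such that for every ordered abelian group `A` (cycles), every
`A`-valued function `cyc` on the tuples which is compatible with twists, and all `Z j` in `A`:
`cyc lam = ∑ n_j(lam) Z_j` for ALL tuples `lam` iff `cyc` satisfies the one-sided Frobenius
recurrence of index one, `∑ n_j(lam) Z_j ≤ cyc lam` for all `lam`, and equality holds for the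
finitely many `lam` in `W`. -/
theorem result (p : ℕ) [Fact p.Prime] (d : ℕ) (hd : 0 < d)
    (k : Type) [Field k] [Fintype k] [CharP k p]
    (F : Type) [Field F] [CharP F p] [IsAlgClosed F]
    (T : Type) [Fintype T] [Nonempty T] (π : T → (k →+* F)) (hπ : Function.Surjective π)
    (J : Type) (V : J → Type) [∀ j, AddCommGroup (V j)] [∀ j, Module F (V j)]
    [∀ j, FiniteDimensional F (V j)]
    (S : ∀ j, Representation F (GL (Fin d) k) (V j))
    (hS : ∀ j, (S j).IsIrreducible)
    (hne : ∀ i j, i ≠ j → IsEmpty ((S i).Equiv (S j)))
    (hall : ∀ (W : Type) [AddCommGroup W] [Module F W] [FiniteDimensional F W]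
      (ρ : Representation F (GL (Fin d) k) W), ρ.IsIrreducible → ∃ j, Nonempty (ρ.Equiv (S j))) :
    ∃ n : (T → Reg d) → (J →₀ ℤ), IsMult p π S n ∧ (∀ n', IsMult p π S n' → n' = n) ∧
      ∀ c : T → Reg d, IsDeep (depth p d (Fintype.card T)) (fun t => (c t).1) →
        ∃ W : Finset (T → Reg d),
          (∀ lam ∈ W, InWindow (radius p d) (fun t => (c t).1) (fun t => (lam t).1)) ∧
          ∀ (A : Type) [AddCommGroup A] [PartialOrder A] [IsOrderedAddMonoid A]
            (cyc : (T → Reg d) → A), TwistRec p π cyc → ∀ Z : J → A,
            ((∀ lam, cyc lam = (n lam).sum fun j z => z • Z j) ↔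
              (OneSidedRec p π cyc ∧
                (∀ lam, ((n lam).sum fun j z => z • Z j) ≤ cyc lam) ∧
                ∀ lam ∈ W, cyc lam = (n lam).sum fun j z => z • Z j)) := by
  obtain ⟨n, hn⟩ := exists_isMult p π S hall
  refine ⟨n, hn, fun n' hn' => isMult_unique p π S hS hne hn' hn, fun c hc => ?_⟩
  have hp : 2 ≤ p := (Fact.out : p.Prime).two_le
  refine ⟨(winSet_finite p hd (radius p d) fun t => (c t).1).toFinset, ?_, ?_⟩
  · intro lam hlam
    rw [Set.Finite.mem_toFinset] at hlam
    exact hlam.1
  · intro A _ _ _ cyc htw Z
    -- the recurrences of the right hand side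
    have hfr : FrobRec p π (fun lam => (n lam).sum fun j z => z • Z j) :=
      frobRec_of_exists p π S hS hne hn _ Z fun _ => rfl
    have h1r : ∀ t t' : T, (∀ z, π t' z = π t z ^ p) → ∀ lam : T → Reg d,
        ∑ i : Fin d, ext (fun lam => (n lam).sum fun j z => z • Z j)
            (shift (fun u => (lam u).1) t p {i}) =
          ∑ i : Fin d, ext (fun lam => (n lam).sum fun j z => z • Z j)
            (shift (fun u => (lam u).1) t' 1 {i}) := by
      intro t t' ht lam
      have h := hfr t t' ht 1 (Finset.mem_Icc.2 ⟨le_rfl, hd⟩) lam
      rw [sum_one, sum_one] at h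
      exact h
    have hdr : ∀ t t' : T, (∀ z, π t' z = π t z ^ p) → ∀ lam : T → Reg d,
        ext (fun lam => (n lam).sum fun j z => z • Z j)
            (shift (fun u => (lam u).1) t p Finset.univ) =
          ext (fun lam => (n lam).sum fun j z => z • Z j)
            (shift (fun u => (lam u).1) t' 1 Finset.univ) := by
      intro t t' ht lam
      have h := hfr t t' ht d (Finset.mem_Icc.2 ⟨hd, le_rfl⟩) lam
      rw [sum_top, sum_top] at h
      exact h
    constructor
    · intro h
      have hc' : cyc = fun lam => (n lam).sum fun j z => z • Z j := funext h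
      refine ⟨?_, fun lam => (h lam).ge, fun lam _ => h lam⟩
      intro t t' ht lam
      rw [hc']
      exact (h1r t t' ht lam).le
    · rintro ⟨hos, hle, hW⟩
      -- the next embedding
      have hnx : ∀ t : T, ∃ t' : T, ∀ z, π t' z = π t z ^ p := by
        intro t
        obtain ⟨t', ht'⟩ := hπ ((frobenius F p).comp (π t))
        refine ⟨t', fun z => ?_⟩
        rw [ht']
        rfl
      choose nx hnx using hnx
      let E : (T → Reg d) → A := fun lam => cyc lam - (n lam).sum fun j z => z • Z j
      have hE : ∀ lam, 0 ≤ E lam := fun lam => sub_nonneg.2 (hle lam)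
      have hext : ∀ m, ext E m = ext cyc m -
          ext (fun lam => (n lam).sum fun j z => z • Z j) m := fun m => ext_sub _ _ m
      have hU : OneSided p nx E := by
        intro t lam
        simp only [hext, Finset.sum_sub_distrib]
        rw [h1r t (nx t) (hnx t) lam]
        exact sub_le_sub_right (hos t (nx t) (hnx t) lam) _
      have hT : ∀ (t : T) (lam : T → Reg d),
          ext E (shift (fun u => (lam u).1) t p Finset.univ) =
            ext E (shift (fun u => (lam u).1) (nx t) 1 Finset.univ) := by
        intro t lam
        rw [hext, hext, htw t (nx t) (hnx t) lam, hdr t (nx t) (hnx t) lam]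
      intro lam
      have h0 : E lam = 0 := by
        refine zero_of_window hp hd hE hU hT (fun t => (c t).1) hc ?_ lam
        intro x hx
        have hxW := hW x ((Set.Finite.mem_toFinset _).2 hx)
        exact sub_eq_zero.2 hxW
      exact sub_eq_zero.1 h0

end Pool.Agent.Results.MP_4c60d4_nt.WindowRigidity
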